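import Pool.Agent.H38.NP.Api

namespace Pool.Agent.Results.MP_62751d_lc.RookYes

open Pool.Agent.H38.NP

/-- Formulas of monadic second-order logic over graphs: vertex variables and vertex-set
variables are both named by natural numbers. -/
inductive MSO : Type
  | eq (x y : ℕ) : MSO
  | adj (x y : ℕ) : MSO
  | mem (x X : ℕ) : MSO
  | neg (φ : MSO) : MSO
  | conj (φ ψ : MSO) : MSO
  | exV (x : ℕ) (φ : MSO) : MSO
  | exS (X : ℕ) (φ : MSO) : MSO
  deriving Countable

/-- Satisfaction under assignments of the vertex variables and of the set variables. -/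
def Sat {V : Type} (G : SimpleGraph V) : MSO → (ℕ → V) → (ℕ → Set V) → Prop
  | .eq x y, v, _ => v x = v y
  | .adj x y, v, _ => G.Adj (v x) (v y)
  | .mem x X, v, s => v x ∈ s X
  | .neg φ, v, s => ¬ Sat G φ v s
  | .conj φ ψ, v, s => Sat G φ v s ∧ Sat G ψ v s
  | .exV x φ, v, s => ∃ a : V, Sat G φ (Function.update v x a) s
  | .exS X φ, v, s => ∃ A : Set V, Sat G φ v (Function.update s X A)

/-- `G` satisfies the universal closure of `φ` (for a sentence and a nonempty graph: `G ⊨ φ`). -/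
def Models {V : Type} (G : SimpleGraph V) (φ : MSO) : Prop := ∀ v s, Sat G φ v s

/-- `k`-expressions. -/
inductive CExp (k : ℕ) : Type
  | vtx (l : Fin k) : CExp k
  | union (e f : CExp k) : CExp k
  | join (i j : Fin k) (h : i ≠ j) (e : CExp k) : CExp k
  | ren (i j : Fin k) (e : CExp k) : CExp k

/-- Vertices of the value of an expression. -/
def CExp.V {k : ℕ} : CExp k → Type
  | .vtx _ => Unit
  | .union e f => e.V ⊕ f.V
  | .join _ _ _ e => e.V
  | .ren _ _ e => e.V

/-- Labels of the value of an expression. -/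
def CExp.lab {k : ℕ} : (e : CExp k) → e.V → Fin k
  | .vtx l, _ => l
  | .union e _, Sum.inl a => e.lab a
  | .union _ f, Sum.inr b => f.lab b
  | .join _ _ _ e, a => e.lab a
  | .ren i j e, a => if e.lab a = i then j else e.lab a

/-- Edges of the value of an expression. -/
def CExp.adj {k : ℕ} : (e : CExp k) → e.V → e.V → Prop
  | .vtx _, _, _ => False
  | .union e _, Sum.inl a, Sum.inl b => e.adj a b
  | .union _ _, Sum.inl _, Sum.inr _ => False
  | .union _ _, Sum.inr _, Sum.inl _ => False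
  | .union _ f, Sum.inr a, Sum.inr b => f.adj a b
  | .join i j _ e, a, b => e.adj a b ∨ (e.lab a = i ∧ e.lab b = j) ∨ (e.lab a = j ∧ e.lab b = i)
  | .ren _ _ e, a, b => e.adj a b

/-- `G` is the value of a `k`-expression, labels forgotten (clique-width at most `k`). -/
def CwLe {V : Type} (G : SimpleGraph V) (k : ℕ) : Prop :=
  ∃ (e : CExp k) (f : V ≃ e.V), ∀ a b, G.Adj a b ↔ e.adj (f a) (f b)

/-- Clique-width is bounded by `O(log n)` on the class `C`. -/
def LogBounded (C : ∀ n : ℕ, SimpleGraph (Fin n) → Prop) : Prop :=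
  ∃ c : ℝ, ∀ (n : ℕ) (G : SimpleGraph (Fin n)), C n G → 2 ≤ n →
    ∃ k : ℕ, (k : ℝ) ≤ c * Real.log n ∧ CwLe G k

theorem sat_iso {V W : Type} {G : SimpleGraph V} {H : SimpleGraph W} (f : G ≃g H) (φ : MSO) :
    ∀ (v : ℕ → V) (s : ℕ → Set W), Sat H φ (f ∘ v) s ↔ Sat G φ v (fun X => f ⁻¹' s X) := by
  induction φ with
  | eq x y => intro v s; simp [Sat]
  | adj x y => intro v s; simp [Sat, f.map_adj_iff]
  | mem x X => intro v s; simp [Sat]
  | neg φ ih => intro v s; simp [Sat, ih]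
  | conj φ ψ ih ih' => intro v s; simp [Sat, ih, ih']
  | exV x φ ih =>
    intro v s
    simp only [Sat]
    constructor
    · rintro ⟨a, ha⟩
      refine ⟨f.symm a, (ih _ _).1 ?_⟩
      rwa [Function.comp_update, f.apply_symm_apply]
    · rintro ⟨a, ha⟩
      refine ⟨f a, ?_⟩
      have := (ih _ _).2 ha
      rwa [Function.comp_update] at this
  | exS X φ ih =>
    intro v s
    simp only [Sat]
    have e : ∀ A : Set W, (fun Y => f ⁻¹' (Function.update s X A) Y)
        = Function.update (fun Y => f ⁻¹' s Y) X (f ⁻¹' A) := by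
      intro A
      funext Y
      by_cases h : Y = X
      · subst h; simp
      · simp [Function.update_of_ne h]
    constructor
    · rintro ⟨A, hA⟩
      exact ⟨f ⁻¹' A, by rw [← e]; exact (ih _ _).1 hA⟩
    · rintro ⟨B, hB⟩
      refine ⟨f '' B, (ih _ _).2 ?_⟩
      rw [e, Set.preimage_image_eq _ f.injective]
      exact hB

theorem models_iso {V W : Type} {G : SimpleGraph V} {H : SimpleGraph W} (f : G ≃g H) (φ : MSO)
    (h : Models G φ) : Models H φ := by
  intro v s
  have := (sat_iso f φ (f.symm ∘ v) s).2 (h _ _)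
  have e : f ∘ f.symm ∘ v = v := by funext x; simp
  rwa [e] at this

theorem fin_V {k : ℕ} (e : CExp k) : Finite e.V := by
  induction e with
  | vtx l => exact inferInstanceAs (Finite Unit)
  | union e f ih ih' => exact inferInstanceAs (Finite (e.V ⊕ f.V))
  | join i j h e ih => exact ih
  | ren i j e ih => exact ih

theorem balanced {k : ℕ} (t : ℕ) (ht : 1 ≤ t) (e : CExp k) : t ≤ Nat.card e.V →
    ∃ (X : Set e.V) (c : e.V → Fin k), t ≤ X.ncard ∧ X.ncard < 2 * t ∧
      ∀ a ∈ X, ∀ b ∈ X, c a = c b →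
        e.lab a = e.lab b ∧ ∀ z ∉ X, (e.adj a z ↔ e.adj b z) := by
  induction e with
  | vtx l =>
    intro h
    have h1 : Nat.card (CExp.vtx l).V = 1 := Nat.card_unique (α := Unit)
    refine ⟨Set.univ, fun _ => l, ?_, ?_, fun a _ b _ _ => ⟨rfl, fun z hz => absurd trivial hz⟩⟩
    · rw [Set.ncard_univ]; exact h
    · rw [Set.ncard_univ]; omega
  | union e f ih ih' =>
    intro h
    have := fin_V e
    have := fin_V f
    have hc : Nat.card (CExp.union e f).V = Nat.card e.V + Nat.card f.V :=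
      Nat.card_sum (α := e.V) (β := f.V)
    by_cases h1 : t ≤ Nat.card e.V
    · obtain ⟨X, c, a1, a2, a3⟩ := ih h1
      refine ⟨(Sum.inl : e.V → e.V ⊕ f.V) '' X, fun z => Sum.elim c f.lab z, ?_, ?_, ?_⟩
      · rwa [← Set.ncard_image_of_injective X (Sum.inl_injective (β := f.V))] at a1
      · rwa [← Set.ncard_image_of_injective X (Sum.inl_injective (β := f.V))] at a2
      · rintro _ ⟨a, ha, rfl⟩ _ ⟨b, hb, rfl⟩ hab
        obtain ⟨b1, b2⟩ := a3 a ha b hb hab
        refine ⟨b1, ?_⟩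
        rintro (z | z) hz
        · exact b2 z (fun hX => hz ⟨z, hX, rfl⟩)
        · exact Iff.rfl
    · by_cases h2 : t ≤ Nat.card f.V
      · obtain ⟨X, c, a1, a2, a3⟩ := ih' h2
        refine ⟨(Sum.inr : f.V → e.V ⊕ f.V) '' X, fun z => Sum.elim e.lab c z, ?_, ?_, ?_⟩
        · rwa [← Set.ncard_image_of_injective X (Sum.inr_injective (α := e.V))] at a1
        · rwa [← Set.ncard_image_of_injective X (Sum.inr_injective (α := e.V))] at a2
        · rintro _ ⟨a, ha, rfl⟩ _ ⟨b, hb, rfl⟩ hab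
          obtain ⟨b1, b2⟩ := a3 a ha b hb hab
          refine ⟨b1, ?_⟩
          rintro (z | z) hz
          · exact Iff.rfl
          · exact b2 z (fun hX => hz ⟨z, hX, rfl⟩)
      · refine ⟨Set.univ, (CExp.union e f).lab, ?_, ?_,
          fun a _ b _ hab => ⟨hab, fun z hz => absurd trivial hz⟩⟩
        · rw [Set.ncard_univ]; exact h
        · rw [Set.ncard_univ]; omega
  | join i j hij e ih =>
    intro h
    obtain ⟨X, c, a1, a2, a3⟩ := ih h
    refine ⟨X, c, a1, a2, fun a ha b hb hab => ?_⟩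
    obtain ⟨b1, b2⟩ := a3 a ha b hb hab
    refine ⟨b1, fun z hz => ?_⟩
    simp only [CExp.adj]
    rw [b2 z hz, b1]
  | ren i j e ih =>
    intro h
    obtain ⟨X, c, a1, a2, a3⟩ := ih h
    refine ⟨X, c, a1, a2, fun a ha b hb hab => ?_⟩
    obtain ⟨b1, b2⟩ := a3 a ha b hb hab
    refine ⟨?_, b2⟩
    simp only [CExp.lab]
    rw [b1]

/-- The rook graph. -/
def rook (m : ℕ) : SimpleGraph (Fin m × Fin m) where
  Adj a b := a ≠ b ∧ (a.1 = b.1 ∨ a.2 = b.2)
  symm := ⟨fun _ _ h => ⟨h.1.symm, h.2.imp Eq.symm Eq.symm⟩⟩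
  loopless := ⟨fun _ h => h.1 rfl⟩

theorem rows {m k : ℕ} (X : Set (Fin m × Fin m)) (c : Fin m × Fin m → Fin k)
    (H : ∀ a ∈ X, ∀ b ∈ X, c a = c b → ∀ z ∉ X, ((rook m).Adj a z ↔ (rook m).Adj b z))
    (R : Finset (Fin m)) (hR : ∀ i ∈ R, (∃ j, (i, j) ∈ X) ∧ ∃ j, (i, j) ∉ X) :
    R.card ≤ 2 * k := by
  classical
  by_contra hc
  have hm : ∀ i : Fin m, ∃ j j' : Fin m, i ∈ R → (i, j) ∈ X ∧ (i, j') ∉ X := by
    intro i
    by_cases hi : i ∈ R
    · obtain ⟨⟨j, hj⟩, j', hj'⟩ := hR i hi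
      exact ⟨j, j', fun _ => ⟨hj, hj'⟩⟩
    · exact ⟨i, i, fun h => absurd h hi⟩
  choose x y hxy using hm
  obtain ⟨l, -, hl⟩ := Finset.exists_lt_card_fiber_of_mul_lt_card_of_maps_to
    (s := R) (t := (Finset.univ : Finset (Fin k))) (f := fun i => c (i, x i)) (n := 2)
    (fun _ _ => Finset.mem_univ _) (by simp; omega)
  obtain ⟨i1, h1, i2, h2, i3, h3, n12, n13, n23⟩ := Finset.two_lt_card.1 hl
  simp only [Finset.mem_filter] at h1 h2 h3
  have key : ∀ i i', i ∈ R → i' ∈ R → c (i, x i) = c (i', x i') → i ≠ i' → x i' = y i := by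
    intro i i' hi hi' hcc hne
    have a : (rook m).Adj (i, x i) (i, y i) :=
      ⟨fun h => (hxy i hi).2 (h ▸ (hxy i hi).1), Or.inl rfl⟩
    have b := (H _ (hxy i hi).1 _ (hxy i' hi').1 hcc _ (hxy i hi).2).1 a
    rcases b.2 with h | h
    · exact absurd h.symm hne
    · exact h
  have e1 := key i1 i3 h1.1 h3.1 (h1.2.trans h3.2.symm) n13
  have e2 := key i2 i1 h2.1 h1.1 (h2.2.trans h1.2.symm) n12.symm
  have e3 := key i2 i3 h2.1 h3.1 (h2.2.trans h3.2.symm) n23
  have : x i1 = y i1 := by rw [e2, ← e3, e1]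
  exact (hxy i1 h1.1).2 (this ▸ (hxy i1 h1.1).1)

theorem rook_cw {p k : ℕ} (hp : 1 ≤ p) (h : CwLe (rook (2 * p)) k) : p ≤ 4 * k := by
  classical
  obtain ⟨e, f, hf⟩ := h
  have hcard : Nat.card e.V = 2 * p * (2 * p) := by
    rw [← Nat.card_congr f]; simp
  obtain ⟨Y, c, a1, a2, a3⟩ := balanced (p * p) (by nlinarith) e (by rw [hcard]; nlinarith)
  set X : Set (Fin (2 * p) × Fin (2 * p)) := f ⁻¹' Y with hX
  have hXc : X.ncard = Y.ncard := by
    rw [← Set.ncard_image_of_injective X f.injective, hX, Set.image_preimage_eq _ f.surjective]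
  have H : ∀ a ∈ X, ∀ b ∈ X, (c ∘ f) a = (c ∘ f) b → ∀ z ∉ X,
      ((rook (2 * p)).Adj a z ↔ (rook (2 * p)).Adj b z) := by
    intro a ha b hb hab z hz
    rw [hf, hf]
    exact (a3 _ ha _ hb hab).2 _ hz
  set R : Finset (Fin (2 * p)) :=
    Finset.univ.filter (fun i => (∃ j, (i, j) ∈ X) ∧ ∃ j, (i, j) ∉ X) with hR
  have hRk : R.card ≤ 2 * k := rows X _ H R (fun i hi => (Finset.mem_filter.1 hi).2)
  have hbox : ∀ Z : Set (Fin (2 * p) × Fin (2 * p)), (∀ z ∈ Z, z.1 ∈ R) →
      Z.ncard ≤ R.card * (2 * p) := by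
    intro Z hZ
    have : Z ⊆ ((R ×ˢ (Finset.univ : Finset (Fin (2 * p))) : Finset _) : Set _) := by
      intro z hz
      simpa using hZ z hz
    refine (Set.ncard_le_ncard this (Set.toFinite _)).trans ?_
    rw [Set.ncard_coe_finset]; simp
  by_cases hA : ∃ i : Fin (2 * p), ∀ j, (i, j) ∈ X
  · by_cases hB : ∃ i : Fin (2 * p), ∀ j, (i, j) ∉ X
    · obtain ⟨i, hi⟩ := hA
      obtain ⟨i', hi'⟩ := hB
      have H' : ∀ a ∈ Prod.swap ⁻¹' X, ∀ b ∈ Prod.swap ⁻¹' X,
          (c ∘ f ∘ Prod.swap) a = (c ∘ f ∘ Prod.swap) b → ∀ z ∉ Prod.swap ⁻¹' X,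
          ((rook (2 * p)).Adj a z ↔ (rook (2 * p)).Adj b z) := by
        intro a ha b hb hab z hz
        have sw : ∀ u w : Fin (2 * p) × Fin (2 * p),
            (rook (2 * p)).Adj u.swap w.swap ↔ (rook (2 * p)).Adj u w := by
          intro u w
          simp only [rook, ne_eq, Prod.swap_inj, Prod.fst_swap, Prod.snd_swap]
          rw [or_comm]
        rw [← sw, ← sw b]
        exact H _ ha _ hb hab _ hz
      have := rows _ _ H' Finset.univ (fun j _ => ⟨⟨i, hi j⟩, ⟨i', hi' j⟩⟩)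
      simp at this
      omega
    · push Not at hB
      have h1 := hbox Xᶜ (fun z hz => Finset.mem_filter.2
        ⟨Finset.mem_univ _, hB z.1, ⟨z.2, hz⟩⟩)
      have h2 := Set.ncard_add_ncard_compl X
      simp only [Nat.card_eq_fintype_card, Fintype.card_prod, Fintype.card_fin] at h2
      by_contra hc
      nlinarith
  · push Not at hA
    have h1 := hbox X (fun z hz => Finset.mem_filter.2
      ⟨Finset.mem_univ _, ⟨z.2, hz⟩, hA z.1⟩)
    by_contra hc
    nlinarith

theorem cwLe_iso {V W : Type} {G : SimpleGraph V} {H : SimpleGraph W} (f : G ≃g H) {k : ℕ}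
    (h : CwLe G k) : CwLe H k := by
  obtain ⟨e, g, hg⟩ := h
  refine ⟨e, f.symm.toEquiv.trans g, fun a b => ?_⟩
  rw [← f.symm.map_adj_iff, hg]
  rfl

theorem exists_sub : ∃ s : ℕ → ℕ, StrictMono s ∧ ∀ φ : MSO, ∃ (N : ℕ) (b : Bool), ∀ i ≥ N,
    (Models (rook (2 * (s i + 1))) φ ↔ b = true) := by
  classical
  obtain ⟨a, -, s, hs, ht⟩ := (isCompact_univ (X := MSO → Bool)).tendsto_subseq
    (x := fun m φ => decide (Models (rook (2 * (m + 1))) φ)) (fun _ => Set.mem_univ _)
  refine ⟨s, hs, fun φ => ?_⟩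
  have := tendsto_pi_nhds.1 ht φ
  rw [nhds_discrete, Filter.tendsto_pure, Filter.eventually_atTop] at this
  obtain ⟨N, hN⟩ := this
  refine ⟨N, a φ, fun i hi => ?_⟩
  rw [← hN i hi]
  simp

theorem result : ∃ C : ∀ n : ℕ, SimpleGraph (Fin n) → Prop,
    (∀ (n m : ℕ) (G : SimpleGraph (Fin n)) (H : SimpleGraph (Fin m)),
      Nonempty (G ≃g H) → C n G → C m H) ∧
    (∀ G, ¬ C 0 G) ∧ ¬ LogBounded C ∧
    ∀ φ : MSO, InPOn (fun a : ℕ × List (ℕ × ℕ) => C a.1 (graphOf a.1 a.2))
      (fun a => Models (graphOf a.1 a.2) φ) := by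
  classical
  obtain ⟨s, hs, hφ⟩ := exists_sub
  have hn : ∀ (n i : ℕ) (G : SimpleGraph (Fin n)), Nonempty (G ≃g rook (2 * (s i + 1))) →
      n = 2 * (s i + 1) * (2 * (s i + 1)) := by
    rintro n i G ⟨f⟩
    simpa using Fintype.card_congr f.toEquiv
  refine ⟨fun n G => ∃ i, Nonempty (G ≃g rook (2 * (s i + 1))), ?_, ?_, ?_, ?_⟩
  · rintro n m G H ⟨f⟩ ⟨i, ⟨g⟩⟩
    exact ⟨i, ⟨f.symm.trans g⟩⟩
  · rintro G ⟨i, h⟩
    have := hn 0 i G h
    simp at this
  · rintro ⟨c, hc⟩
    obtain ⟨i, hi⟩ := exists_nat_gt (512 * c ^ 2)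
    have hsi : i ≤ s i := hs.le_apply
    set p := s i + 1 with hp
    have hcard : Fintype.card (Fin (2 * p) × Fin (2 * p)) = 2 * p * (2 * p) := by simp
    have iso := (rook (2 * p)).overFinIso hcard
    obtain ⟨k, hk, hcw⟩ := hc (2 * p * (2 * p)) ((rook (2 * p)).overFin hcard) ⟨i, ⟨iso.symm⟩⟩
      (by nlinarith)
    have h1 := rook_cw (by omega) (cwLe_iso iso.symm hcw)
    have h1' : (p : ℝ) ≤ 4 * k := by exact_mod_cast h1
    have hp0 : (0 : ℝ) < p := by positivity
    have hpi : (i : ℝ) < p := by exact_mod_cast (by omega : i < p)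
    set r := Real.sqrt (2 * p) with hr
    have hr0 : 0 < r := Real.sqrt_pos.2 (by positivity)
    have hr2 : r ^ 2 = 2 * p := Real.sq_sqrt (by positivity)
    have hl : Real.log ((2 * p * (2 * p) : ℕ) : ℝ) = 4 * Real.log r := by
      have : ((2 * p * (2 * p) : ℕ) : ℝ) = r ^ 4 := by
        push_cast; nlinarith
      rw [this, Real.log_pow]; norm_num
    have hl2 : Real.log r ≤ r := (Real.log_le_sub_one_of_pos hr0).trans (by linarith)
    have hl0 : 0 ≤ Real.log r := Real.log_nonneg (by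
      have : (1 : ℝ) ≤ p := by exact_mod_cast (by omega : 1 ≤ p)
      nlinarith)
    rw [hl] at hk
    have hc0 : 0 < c := by
      by_contra hneg
      push Not at hneg
      nlinarith
    have h3 : (p : ℝ) ≤ 16 * c * r := by nlinarith
    have h4 : r ≤ 32 * c := by nlinarith
    nlinarith
  · intro φ
    obtain ⟨N, b, hN⟩ := hφ φ
    have hmono : StrictMono (fun i => 2 * (s i + 1) * (2 * (s i + 1))) := by
      intro i j hij
      have := hs hij
      simp only
      nlinarith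
    set L : List ℕ := ((List.range N).filter
      (fun i => decide (Models (rook (2 * (s i + 1))) φ))).map
        (fun i => 2 * (s i + 1) * (2 * (s i + 1))) with hL
    refine inPOn_of_pt (fun a : ℕ × List (ℕ × ℕ) => (L.any (fun x => x == a.1)) ||
      (decide (2 * (s N + 1) * (2 * (s N + 1)) ≤ a.1) && b)) (by fun_prop) ?_
    rintro ⟨n, E⟩ ⟨i, hi⟩
    have hni := hn _ _ _ hi
    obtain ⟨f⟩ := hi
    have hM : Models (graphOf n E) φ ↔ Models (rook (2 * (s i + 1))) φ :=
      ⟨models_iso f φ, models_iso f.symm φ⟩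
    simp only at hni ⊢
    rw [hM]
    have hany : (L.any (fun x => x == n)) = true ↔
        i < N ∧ Models (rook (2 * (s i + 1))) φ := by
      simp only [hL, List.any_eq_true, List.mem_map, List.mem_filter, List.mem_range,
        decide_eq_true_eq, beq_iff_eq]
      constructor
      · rintro ⟨x, ⟨j, ⟨hj, hj'⟩, rfl⟩, hx⟩
        have : j = i := hmono.injective (hx.trans hni)
        subst this
        exact ⟨hj, hj'⟩
      · rintro ⟨h1, h2⟩
        exact ⟨_, ⟨i, ⟨h1, h2⟩, rfl⟩, hni.symm⟩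
    have hle : 2 * (s N + 1) * (2 * (s N + 1)) ≤ n ↔ N ≤ i := by
      rw [hni]; exact hmono.le_iff_le
    simp only [Bool.or_eq_true, Bool.and_eq_true, decide_eq_true_eq, hany, hle]
    rcases lt_or_ge i N with h | h
    · constructor
      · exact fun hm => Or.inl ⟨h, hm⟩
      · rintro (hm | hm)
        · exact hm.2
        · omega
    · rw [hN i h]
      constructor
      · exact fun hm => Or.inr ⟨h, hm⟩
      · rintro (hm | hm)
        · omega
        · exact hm.2

end Pool.Agent.Results.MP_62751d_lc.RookYes
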